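import Pool.Agent.Helper70.OB.GoalsE

open MeasureTheory Set Filter
open scoped Topology

namespace Pool.Agent.Helper39.OB

/-- `∫ cosh^m t e^{-r cosh t} dt` -/
noncomputable def II (m : ℕ) (r : ℝ) : ℝ :=
  ∫ t : ℝ, Real.cosh t ^ m * Real.exp (-(r * Real.cosh t))

lemma cosh_lb (t : ℝ) : t ^ 2 / 4 ≤ Real.cosh t := by
  have h1 : Real.cosh t = Real.cosh |t| := (Real.cosh_abs t).symm
  have h2 : t ^ 2 = |t| ^ 2 := (sq_abs t).symm
  rw [h1, h2, Real.cosh_eq]
  have h3 := Real.quadratic_le_exp_of_nonneg (abs_nonneg t)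
  have h4 := Real.exp_pos (-|t|)
  have h5 := abs_nonneg t
  linarith

lemma int_exp (a : ℝ) (ha : 0 < a) :
    Integrable (fun t : ℝ => Real.exp (-(a * Real.cosh t))) := by
  have h1 := integrable_exp_neg_mul_sq (b := a / 4) (by positivity)
  refine h1.mono' ?_ ?_
  · refine Continuous.aestronglyMeasurable ?_
    fun_prop
  · refine Filter.Eventually.of_forall fun t => ?_
    rw [Real.norm_eq_abs, abs_of_pos (Real.exp_pos _), Real.exp_le_exp]
    have h2 := mul_le_mul_of_nonneg_left (cosh_lb t) ha.le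
    linarith

/-- polynomial factors are absorbed -/
lemma pow_mul_exp_le (m : ℕ) (a : ℝ) (ha : 0 < a) : ∃ C : ℝ, 0 < C ∧ ∀ x : ℝ, 0 ≤ x →
    x ^ m ≤ C * Real.exp (a * x) := by
  refine ⟨m.factorial / a ^ m, by positivity, fun x hx => ?_⟩
  have h1 := Real.pow_div_factorial_le_exp (x := a * x) (by positivity) m
  have h2 : (0 : ℝ) < m.factorial := by positivity
  rw [div_le_iff₀ h2, mul_pow] at h1
  rw [div_mul_eq_mul_div, le_div_iff₀ (by positivity)]
  linarith

lemma int_cosh (m : ℕ) (r : ℝ) (hr : 0 < r) :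
    Integrable (fun t : ℝ => Real.cosh t ^ m * Real.exp (-(r * Real.cosh t))) := by
  obtain ⟨C, hC, h1⟩ := pow_mul_exp_le m (r / 2) (by positivity)
  refine ((int_exp (r / 2) (by positivity)).const_mul C).mono' ?_ ?_
  · refine Continuous.aestronglyMeasurable ?_
    fun_prop
  · refine Filter.Eventually.of_forall fun t => ?_
    have hc := Real.cosh_pos t
    rw [Real.norm_eq_abs, abs_of_pos (by positivity)]
    calc Real.cosh t ^ m * Real.exp (-(r * Real.cosh t))
        ≤ (C * Real.exp (r / 2 * Real.cosh t)) * Real.exp (-(r * Real.cosh t)) :=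
          mul_le_mul_of_nonneg_right (h1 _ hc.le) (Real.exp_pos _).le
      _ = C * Real.exp (-(r / 2 * Real.cosh t)) := by
          rw [mul_assoc, ← Real.exp_add]
          congr 2
          ring

lemma II_deriv (m : ℕ) (r : ℝ) (hr : 0 < r) : HasDerivAt (II m) (-(II (m + 1) r)) r := by
  have hd := (hasDerivAt_integral_of_dominated_loc_of_deriv_le (μ := volume) (𝕜 := ℝ)
    (F := fun x t => Real.cosh t ^ m * Real.exp (-(x * Real.cosh t)))
    (F' := fun x t => -(Real.cosh t ^ (m + 1) * Real.exp (-(x * Real.cosh t))))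
    (x₀ := r) (s := Ioi (r / 2))
    (bound := fun t => Real.cosh t ^ (m + 1) * Real.exp (-(r / 2 * Real.cosh t)))
    (Ioi_mem_nhds (by linarith))
    (Filter.Eventually.of_forall fun x => Continuous.aestronglyMeasurable (by fun_prop))
    (int_cosh m r hr)
    (Continuous.aestronglyMeasurable (by fun_prop))
    (Filter.Eventually.of_forall fun t x hx => by
      have hc := Real.cosh_pos t
      rw [norm_neg, Real.norm_eq_abs, abs_of_pos (by positivity)]
      refine mul_le_mul_of_nonneg_left ?_ (by positivity)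
      rw [Real.exp_le_exp]
      have hx' : r / 2 < x := hx
      have := mul_le_mul_of_nonneg_right hx'.le hc.le
      linarith)
    (int_cosh (m + 1) (r / 2) (by linarith))
    (Filter.Eventually.of_forall fun t x hx => by
      have h1 : HasDerivAt (fun x : ℝ => -(x * Real.cosh t)) (-Real.cosh t) x := by
        refine ((hasDerivAt_id x).mul_const (Real.cosh t)).neg.congr_deriv ?_
        ring
      have h2 := (h1.exp).const_mul (Real.cosh t ^ m)
      refine h2.congr_deriv ?_
      ring)).2
  rw [integral_neg] at hd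
  exact hd

lemma II_pos (m : ℕ) (r : ℝ) (hr : 0 < r) : 0 < II m r := by
  unfold II
  rw [integral_pos_iff_support_of_nonneg]
  · have h : (Function.support fun t : ℝ =>
        Real.cosh t ^ m * Real.exp (-(r * Real.cosh t))) = univ := by
      refine eq_univ_of_forall fun t => ?_
      have hc := Real.cosh_pos t
      have : 0 < Real.cosh t ^ m * Real.exp (-(r * Real.cosh t)) := by positivity
      exact this.ne'
    rw [h]
    simp
  · intro t
    have hc := Real.cosh_pos t
    have : 0 < Real.cosh t ^ m * Real.exp (-(r * Real.cosh t)) := by positivity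
    exact this.le
  · exact int_cosh m r hr

/-- decay -/
lemma II_le (m : ℕ) (r : ℝ) (hr : 1 ≤ r) : II m r ≤ (Real.exp 1 * II m 1) * Real.exp (-r) := by
  have h : (Real.exp 1 * II m 1) * Real.exp (-r) =
      ∫ t : ℝ, Real.exp (1 - r) * (Real.cosh t ^ m * Real.exp (-(1 * Real.cosh t))) := by
    rw [integral_const_mul]
    rw [sub_eq_add_neg, Real.exp_add]
    unfold II
    ring
  rw [h]
  unfold II
  refine integral_mono (int_cosh m r (by linarith)) ((int_cosh m 1 one_pos).const_mul _) ?_
  intro t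
  have hc := Real.one_le_cosh t
  have hc0 := Real.cosh_pos t
  simp only
  rw [mul_left_comm, ← Real.exp_add]
  refine mul_le_mul_of_nonneg_left ?_ (by positivity)
  rw [Real.exp_le_exp]
  nlinarith

/-- partial integration: the Bessel relation -/
lemma II_rel (r : ℝ) (hr : 0 < r) : r * II 2 r = r * II 0 r + II 1 r := by
  have h0 := int_cosh 0 r hr
  have h1 := int_cosh 1 r hr
  have h2 := int_cosh 2 r hr
  have hder : ∀ t : ℝ, HasDerivAt (fun t : ℝ => Real.sinh t * Real.exp (-(r * Real.cosh t)))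
      ((Real.cosh t ^ 1 * Real.exp (-(r * Real.cosh t)) -
        r * (Real.cosh t ^ 2 * Real.exp (-(r * Real.cosh t)))) +
        r * (Real.cosh t ^ 0 * Real.exp (-(r * Real.cosh t)))) t := by
    intro t
    have e1 : HasDerivAt (fun t : ℝ => -(r * Real.cosh t)) (-(r * Real.sinh t)) t :=
      ((Real.hasDerivAt_cosh t).const_mul r).neg
    have e2 := (Real.hasDerivAt_sinh t).mul e1.exp
    refine e2.congr_deriv ?_
    have e3 := Real.cosh_sq t
    rw [e3]
    ring
  have hint := (h1.sub (h2.const_mul r)).add (h0.const_mul r)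
  have hf : Integrable (fun t : ℝ => Real.sinh t * Real.exp (-(r * Real.cosh t))) := by
    refine h1.mono' (Continuous.aestronglyMeasurable (by fun_prop)) ?_
    refine Filter.Eventually.of_forall fun t => ?_
    rw [norm_mul, Real.norm_eq_abs, Real.norm_eq_abs, abs_of_pos (Real.exp_pos _), pow_one]
    refine mul_le_mul_of_nonneg_right ?_ (Real.exp_pos _).le
    have e3 := Real.cosh_sq t
    exact abs_le_of_sq_le_sq' (by linarith) (Real.cosh_pos t).le |> abs_le.mpr
  have key := integral_eq_zero_of_hasDerivAt_of_integrable hder hint hf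
  have key2 : ∫ t : ℝ, ((Real.cosh t ^ 1 * Real.exp (-(r * Real.cosh t)) -
        r * (Real.cosh t ^ 2 * Real.exp (-(r * Real.cosh t)))) +
        r * (Real.cosh t ^ 0 * Real.exp (-(r * Real.cosh t)))) =
      II 1 r - r * II 2 r + r * II 0 r := by
    have e1 := integral_add (h1.sub (h2.const_mul r)) (h0.const_mul r)
    have e2 := integral_sub h1 (h2.const_mul r)
    rw [integral_const_mul] at e1 e2
    have e3 : (∫ t : ℝ, ((fun t => Real.cosh t ^ 1 * Real.exp (-(r * Real.cosh t))) -
        fun t => r * (Real.cosh t ^ 2 * Real.exp (-(r * Real.cosh t)))) t) =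
        ∫ t : ℝ, (Real.cosh t ^ 1 * Real.exp (-(r * Real.cosh t)) -
          r * (Real.cosh t ^ 2 * Real.exp (-(r * Real.cosh t)))) := rfl
    rw [e3, e2] at e1
    exact e1
  rw [key2] at key
  linarith

/-- `F_0 = K_0`, `F_{m+1} = - F_m' / r` -/
noncomputable def FF : ℕ → ℝ → ℝ
  | 0, s => II 0 s
  | 1, s => II 1 s / s
  | (j + 2), s => (FF j s + (2 * j + 2) * FF (j + 1) s) / s ^ 2

lemma FF_zero (s : ℝ) : FF 0 s = II 0 s := by rw [FF]

lemma FF_one (s : ℝ) : FF 1 s = II 1 s / s := by rw [FF]

lemma FF_succ_succ (j : ℕ) (s : ℝ) :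
    FF (j + 2) s = (FF j s + (2 * j + 2) * FF (j + 1) s) / s ^ 2 := by rw [FF]

lemma FF_pos (j : ℕ) {s : ℝ} (hs : 0 < s) : 0 < FF j s := by
  have h : ∀ j, 0 < FF j s ∧ 0 < FF (j + 1) s := by
    intro j
    induction j with
    | zero =>
      rw [FF_zero, FF_one]
      exact ⟨II_pos 0 s hs, div_pos (II_pos 1 s hs) hs⟩
    | succ j ih =>
      refine ⟨ih.2, ?_⟩
      rw [FF_succ_succ]
      obtain ⟨h1, h2⟩ := ih
      positivity
  exact (h j).1

lemma FF_hasDerivAt (j : ℕ) {s : ℝ} (hs : 0 < s) :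
    HasDerivAt (FF j) (-(s * FF (j + 1) s)) s := by
  have hs' := hs.ne'
  have h : ∀ j, HasDerivAt (FF j) (-(s * FF (j + 1) s)) s ∧
      HasDerivAt (FF (j + 1)) (-(s * FF (j + 2) s)) s := by
    intro j
    induction j with
    | zero =>
      constructor
      · have h0 : FF 0 = II 0 := funext FF_zero
        rw [h0, FF_one]
        refine (II_deriv 0 s hs).congr_deriv ?_
        field_simp
      · have h0 : FF (0 + 1) = fun s => II 1 s / s := funext FF_one
        rw [h0, FF_succ_succ]
        have h1 := (II_deriv 1 s hs).div (hasDerivAt_id s) hs'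
        refine h1.congr_deriv ?_
        simp only [FF_zero, FF_one, id, zero_add]
        have hrel := II_rel s hs
        push_cast
        field_simp
        have : II (1 + 1) s = II 2 s := rfl
        rw [this]
        nlinarith [hrel]
    | succ j ih =>
      refine ⟨ih.2, ?_⟩
      obtain ⟨h1, h2⟩ := ih
      have h0 : FF (j + 1 + 1) = fun s => (FF j s + (2 * j + 2) * FF (j + 1) s) / s ^ 2 :=
        funext (FF_succ_succ j)
      rw [h0]
      have h3 := (h1.add (h2.const_mul (2 * (j : ℝ) + 2))).div (hasDerivAt_pow 2 s)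
        (pow_ne_zero 2 hs')
      refine h3.congr_deriv ?_
      simp only [Pi.add_apply]
      rw [FF_succ_succ (j + 1), FF_succ_succ j]
      push_cast
      field_simp
      ring
  exact (h j).1

lemma FF_decay (j : ℕ) : ∃ C : ℝ, 0 < C ∧ ∀ r : ℝ, 1 ≤ r → FF j r ≤ C * Real.exp (-r) := by
  have h : ∀ j, (∃ C : ℝ, 0 < C ∧ ∀ r : ℝ, 1 ≤ r → FF j r ≤ C * Real.exp (-r)) ∧
      (∃ C : ℝ, 0 < C ∧ ∀ r : ℝ, 1 ≤ r → FF (j + 1) r ≤ C * Real.exp (-r)) := by
    intro j
    induction j with
    | zero =>
      constructor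
      · refine ⟨Real.exp 1 * II 0 1, mul_pos (Real.exp_pos 1) (II_pos 0 1 one_pos), ?_⟩
        intro r hr
        rw [FF_zero]
        exact II_le 0 r hr
      · refine ⟨Real.exp 1 * II 1 1, mul_pos (Real.exp_pos 1) (II_pos 1 1 one_pos), ?_⟩
        intro r hr
        rw [zero_add, FF_one]
        refine le_trans (div_le_self (II_pos 1 r (by linarith)).le hr) (II_le 1 r hr)
    | succ j ih =>
      refine ⟨ih.2, ?_⟩
      obtain ⟨⟨C1, hC1, h1⟩, ⟨C2, hC2, h2⟩⟩ := ih
      refine ⟨C1 + (2 * j + 2) * C2, by positivity, ?_⟩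
      intro r hr
      have hr0 : 0 < r := by linarith
      rw [FF_succ_succ]
      have hp1 := FF_pos j hr0
      have hp2 := FF_pos (j + 1) hr0
      refine le_trans (div_le_self (by positivity) (one_le_pow₀ hr)) ?_
      have e1 := h1 r hr
      have e2 := mul_le_mul_of_nonneg_left (h2 r hr) (show (0 : ℝ) ≤ 2 * j + 2 by positivity)
      calc FF j r + (2 * j + 2) * FF (j + 1) r
          ≤ C1 * Real.exp (-r) + (2 * j + 2) * (C2 * Real.exp (-r)) := add_le_add e1 e2
        _ = _ := by ring
  exact (h j).1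

/-- A positive decaying radial solution of `(1-Δ) K = 0` in dimension `2k`. -/
theorem kev : Pool.Agent.Helper70.OB.KEV := by
  intro k hk
  obtain ⟨m, rfl⟩ : ∃ m, k = m + 1 := ⟨k - 1, by omega⟩
  have hexp : 2 * (m + 1) - 1 = 2 * m + 1 := by omega
  rw [hexp]
  refine ⟨FF m, fun r => -(r ^ (2 * m + 2) * FF (m + 1) r), ?_, ?_⟩
  · intro r hr
    refine ⟨FF_pos m hr, ?_, ?_⟩
    · refine (FF_hasDerivAt m hr).congr_deriv ?_
      field_simp
      ring
    · have h1 := ((hasDerivAt_pow (2 * m + 2) r).mul (FF_hasDerivAt (m + 1) hr)).neg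
      refine h1.congr_deriv ?_
      rw [FF_succ_succ]
      have e : 2 * m + 2 - 1 = 2 * m + 1 := by omega
      rw [e]
      push_cast
      field_simp
      ring
  · obtain ⟨C1, hC1, h1⟩ := FF_decay m
    obtain ⟨C2, hC2, h2⟩ := FF_decay (m + 1)
    obtain ⟨C3, hC3, h3⟩ := pow_mul_exp_le (2 * m + 2) (1 / 2) (by norm_num)
    refine ⟨C1 + C3 * C2, ?_⟩
    intro r hr
    have hr0 : 0 < r := by linarith
    have hp1 := FF_pos m hr0
    have hp2 := FF_pos (m + 1) hr0
    have hE := Real.exp_pos (-(r / 2))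
    constructor
    · rw [abs_of_pos hp1]
      have e1 : Real.exp (-r) ≤ Real.exp (-(r / 2)) := by
        rw [Real.exp_le_exp]; linarith
      calc FF m r ≤ C1 * Real.exp (-r) := h1 r hr
        _ ≤ C1 * Real.exp (-(r / 2)) := mul_le_mul_of_nonneg_left e1 hC1.le
        _ ≤ (C1 + C3 * C2) * Real.exp (-(r / 2)) := by
            refine mul_le_mul_of_nonneg_right ?_ hE.le
            have : 0 < C3 * C2 := by positivity
            linarith
    · rw [abs_neg, abs_of_pos (by positivity)]
      calc r ^ (2 * m + 2) * FF (m + 1) r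
          ≤ (C3 * Real.exp (1 / 2 * r)) * (C2 * Real.exp (-r)) :=
            mul_le_mul (h3 r hr0.le) (h2 r hr) hp2.le (by positivity)
        _ = (C3 * C2) * Real.exp (-(r / 2)) := by
            rw [mul_mul_mul_comm, ← Real.exp_add]
            congr 2
            ring
        _ ≤ (C1 + C3 * C2) * Real.exp (-(r / 2)) := by
            refine mul_le_mul_of_nonneg_right ?_ hE.le
            linarith

end Pool.Agent.Helper39.OB
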