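import Pool.Agent.Helper70.OB.Goals

/-! Packet OB-RSET of helper70: the radii of the support of a rotation invariant measure. -/

namespace Pool.Agent.Helper39.OB

open MeasureTheory Set Metric Filter
open scoped ENNReal Topology
open Pool.Agent.Results.MP_91ee6f_gt
open Pool.Agent.Helper70.OB

theorem supp_map {n : ℕ} {τ : Measure (En n)} (hτ : Rot τ) (g : En n ≃ₗᵢ[ℝ] En n) {x : En n}
    (hx : x ∈ τ.support) : g x ∈ τ.support := by
  rw [Measure.mem_support_iff_forall] at hx ⊢
  intro U hU
  have h1 : g ⁻¹' U ∈ 𝓝 x := g.continuous.continuousAt hU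
  have h2 := hx _ h1
  have h3 : τ.map g U = τ (g ⁻¹' U) :=
    (g.toHomeomorph.measurableEmbedding).map_apply τ U
  rw [hτ g] at h3
  rw [h3]
  exact h2

theorem supp_norm {n : ℕ} {τ : Measure (En n)} (hτ : Rot τ) {x y : En n} (h : ‖x‖ = ‖y‖)
    (hx : x ∈ τ.support) : y ∈ τ.support := by
  have h1 := supp_map hτ ((Submodule.span ℝ {x - y})ᗮ.reflection) hx
  rwa [Submodule.reflection_sub h] at h1

/-- Packet OB-RSET. -/
theorem rset : RSET := by
  intro n _ τ R hR hfin hτ hball e he S hS
  have hsupp : τ.support = {x : En n | ‖x‖ ∈ S} := by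
    ext x
    rw [hS]
    simp only [mem_setOf_eq, norm_nonneg, true_and]
    have hn : ‖x‖ = ‖‖x‖ • e‖ := by
      rw [norm_smul, he, mul_one, norm_norm]
    exact ⟨fun h => supp_norm hτ hn h, fun h => supp_norm hτ hn.symm h⟩
  have hcl : IsClosed S := by
    rw [hS]
    have h1 : {r : ℝ | 0 ≤ r ∧ r • e ∈ τ.support} = Ici 0 ∩ (fun r : ℝ => r • e) ⁻¹' τ.support := by
      ext r; simp
    rw [h1]
    exact isClosed_Ici.inter (Measure.isClosed_support.preimage (by fun_prop))
  refine ⟨hcl, ?_, hsupp, ?_, ?_⟩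
  · intro r hr
    rw [hS] at hr
    refine ⟨hr.1, ?_⟩
    by_contra hlt
    push Not at hlt
    have h1 : (closedBall (0 : En n) R)ᶜ ∈ 𝓝 (r • e) := by
      refine isClosed_closedBall.isOpen_compl.mem_nhds ?_
      rw [mem_compl_iff, mem_closedBall_zero_iff, norm_smul, he, mul_one, Real.norm_eq_abs,
        abs_of_nonneg hr.1]
      exact not_le.2 hlt
    have h2 := (Measure.mem_support_iff_forall _).1 hr.2 _ h1
    rw [hball] at h2
    exact lt_irrefl _ h2
  · intro x y hxy hE
    refine le_antisymm (measure_mono (ball_subset_ball hxy)) ?_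
    have h1 : ball (0 : En n) y ⊆ ball 0 x ∪ τ.supportᶜ := by
      intro z hz
      by_cases hzx : ‖z‖ < x
      · exact Or.inl (mem_ball_zero_iff.2 hzx)
      · right
        intro hzs
        rw [hsupp] at hzs
        have : ‖z‖ ∈ S ∩ Ico x y := ⟨hzs, not_lt.1 hzx, mem_ball_zero_iff.1 hz⟩
        rw [hE] at this
        exact this
    refine (measure_mono h1).trans ((measure_union_le _ _).trans (le_of_eq ?_))
    rw [Measure.measure_compl_support, add_zero]
  · intro x y hx hxy hne
    obtain ⟨r, hrS, hr1, hr2⟩ := hne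
    rw [hS] at hrS
    set U : Set (En n) := {z | x < ‖z‖ ∧ ‖z‖ < y} with hU
    have hUo : IsOpen U := (isOpen_lt continuous_const continuous_norm).inter
      (isOpen_lt continuous_norm continuous_const)
    have hrU : r • e ∈ U := by
      rw [hU, mem_setOf_eq, norm_smul, he, mul_one, Real.norm_eq_abs, abs_of_nonneg hrS.1]
      exact ⟨hr1, hr2⟩
    have hpos := (Measure.mem_support_iff_forall _).1 hrS.2 _ (hUo.mem_nhds hrU)
    have hdis : Disjoint (ball (0 : En n) x) U := by
      rw [Set.disjoint_left]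
      intro z hz hz2
      exact absurd (mem_ball_zero_iff.1 hz) (not_lt.2 hz2.1.le)
    have hsub : ball (0 : En n) x ∪ U ⊆ ball 0 y := by
      rintro z (hz | hz)
      · exact ball_subset_ball hxy.le hz
      · exact mem_ball_zero_iff.2 hz.2
    calc τ (ball 0 x) < τ (ball 0 x) + τ U :=
          ENNReal.lt_add_right (measure_ne_top _ _) hpos.ne'
      _ = τ (ball 0 x ∪ U) := (measure_union hdis hUo.measurableSet).symm
      _ ≤ τ (ball 0 y) := measure_mono hsub

end Pool.Agent.Helper39.OB
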